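import Pool.Agent.K1H24.Q3.LSV2

/-! # Q3-11: the larger sieve, `S_LSVof` (helper24, for project Q3 of helper79) -/

set_option autoImplicit false

namespace Pool.Agent.K1H24.Q3

open Finset Pool.Agent.K1H79.Q3
open scoped Classical

theorem weight_ge {p : ℕ} (hp : 1 ≤ p) :
    3 * (Real.log p / p) - 45 * (Real.log p / ((p : ℝ) * √p)) ≤ Real.log p / (p / 3 + 2 * √p + 3) := by
  have hp0 : (1 : ℝ) ≤ p := by exact_mod_cast hp
  have hlog : 0 ≤ Real.log p := Real.log_natCast_nonneg p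
  obtain ⟨s, hs⟩ : ∃ s : ℝ, s = √p := ⟨_, rfl⟩
  have hs1 : 1 ≤ s := by rw [hs]; exact Real.one_le_sqrt.2 hp0
  have hsp : (p : ℝ) = s ^ 2 := by rw [hs, Real.sq_sqrt (by linarith)]
  rw [← hs]
  obtain ⟨l, hl⟩ : ∃ l : ℝ, l = Real.log p := ⟨_, rfl⟩
  rw [← hl] at hlog ⊢
  rw [hsp]
  have h1 : 3 * (l / s ^ 2) - 45 * (l / (s ^ 2 * s)) = l * (3 * s - 45) / s ^ 3 := by
    field_simp
    try ring
  rw [h1, div_le_div_iff₀ (by positivity) (by positivity)]
  have h2 : (3 * s - 45) * (s ^ 2 / 3 + 2 * s + 3) ≤ s ^ 3 := by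
    nlinarith [sq_nonneg (s - 1), mul_nonneg (sub_nonneg.2 hs1) (sub_nonneg.2 hs1)]
  calc l * (3 * s - 45) * (s ^ 2 / 3 + 2 * s + 3) = l * ((3 * s - 45) * (s ^ 2 / 3 + 2 * s + 3)) := by ring
    _ ≤ l * s ^ 3 := mul_le_mul_of_nonneg_left h2 hlog

theorem card_image_irrel {α β : Type*} (i j : DecidableEq β) (f : α → β) (s : Finset α) :
    ((@Finset.image α β i f s).card : ℝ) = ((@Finset.image α β j f s).card : ℝ) := by
  have h : i = j := Subsingleton.elim i j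
  rw [h]

theorem t_LSVof : S_LSVof := by
  intro hCUB hMER ε hε
  obtain ⟨C1, hMER⟩ := hMER
  obtain ⟨C2, hC2, hpf⟩ := sum_primeFactors (2 * ε / 5) (by positivity)
  obtain ⟨C3, hC3, h32⟩ := sum_log_three_halves
  obtain ⟨K, hK⟩ : ∃ K : ℝ, K = max 0 (6 * C1 + 6 * C2 + 90 * C3 + 1) := ⟨_, rfl⟩
  have hK0 : 0 ≤ K := by rw [hK]; exact le_max_left _ _
  have hK1 : 6 * C1 + 6 * C2 + 90 * C3 + 1 ≤ K := by rw [hK]; exact le_max_right _ _
  refine ⟨4 * Real.log 4 * Real.exp K, by positivity, ?_⟩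
  intro P R S ζ hP hζ W hW U hUW hUc
  have hnm : 1 ≤ nm P := nm_pos hP
  have hnm' : (1 : ℝ) ≤ (nm P : ℝ) := by exact_mod_cast hnm
  have hlogW : 0 ≤ Real.log W := Real.log_nonneg hW
  have hlogP : 0 ≤ Real.log (nm P) := Real.log_nonneg hnm'
  -- the size of Q
  obtain ⟨X, hX⟩ : ∃ X : ℝ, X = Real.exp (5 / 12 * (Real.log W + K + 12 / 5 * ε * Real.log (nm P))) := ⟨_, rfl⟩
  have hX1 : 1 ≤ X := by
    rw [hX]
    apply Real.one_le_exp
    positivity
  obtain ⟨Q, hQ⟩ : ∃ Q : ℕ, Q = ⌈X⌉₊ := ⟨_, rfl⟩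
  have hQX : X ≤ Q := by rw [hQ]; exact Nat.le_ceil _
  have hQ2 : (Q : ℝ) ≤ 2 * X := by
    rw [hQ]
    have := (Nat.ceil_lt_add_one (show 0 ≤ X by linarith)).le
    linarith
  have hQ1 : 1 ≤ Q := by
    have : (1 : ℝ) ≤ Q := by linarith
    exact_mod_cast this
  have hlogQ : 5 / 12 * (Real.log W + K + 12 / 5 * ε * Real.log (nm P)) ≤ Real.log Q := by
    have h1 := Real.log_le_log (by linarith) hQX
    rwa [hX, Real.log_exp] at h1
  -- the index sets
  obtain ⟨A, hA⟩ : ∃ A : Finset ℕ, A = (Icc 1 Q).filter (fun p => p.Prime ∧ p % 3 = 1) := ⟨_, rfl⟩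
  obtain ⟨G, hG⟩ : ∃ G : Finset ℕ, G = A.filter (fun p => ¬ p ∣ nm P) := ⟨_, rfl⟩
  have hGm : ∀ p ∈ G, (1 ≤ p ∧ p ≤ Q) ∧ p.Prime ∧ p % 3 = 1 ∧ ¬ p ∣ nm P := by
    intro p hp
    rw [hG, hA, Finset.mem_filter, Finset.mem_filter, Finset.mem_Icc] at hp
    exact ⟨hp.1.1, hp.1.2.1, hp.1.2.2, hp.2⟩
  have hgal := gallagher (fun i : ℕ × Bool => ZMod i.1) U (G ×ˢ (Finset.univ : Finset Bool))
    (fun i => mp i) (fun i => Real.log i.1) (fun i => (i.1 : ℝ) / 3 + 2 * √(i.1 : ℝ) + 3)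
    (fun i _ => Real.log_natCast_nonneg _)
    (by
      rintro ⟨p, b⟩ hi
      rw [Finset.mem_product] at hi
      obtain ⟨-, h1, h2, h3⟩ := hGm p hi.1
      have h4 := card_image_le hCUB h1 h2 b P R S ζ h3 hζ U hUc
      refine le_trans (le_of_eq ?_) h4
      exact card_image_irrel _ _ _ _)
    (fun i _ => by positivity) (Real.log W) hlogW
    (by
      intro u hu v hv huv
      have hz : u - v ≠ 0 := sub_ne_zero.2 huv
      have h1 := sum_nk_le G (fun p hp => ⟨(hGm p hp).2.1, (hGm p hp).2.2.1⟩) (u - v) hz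
      have h2 : Real.log (nm (u - v)) ≤ Real.log W :=
        Real.log_le_log (by exact_mod_cast nm_pos hz) (hUW u hu v hv)
      refine le_trans (le_of_eq ?_) (h1.trans h2)
      rw [Finset.sum_filter, Finset.sum_product]
      apply Finset.sum_congr rfl
      intro p hp
      obtain ⟨-, h3, h4, -⟩ := hGm p hp
      have h5 : ∀ b : Bool, (mp (p, b) u = mp (p, b) v ↔ mp (p, b) (u - v) = 0) := by
        intro b
        obtain ⟨θ, hθ, hm⟩ := mp_hom h3 h4 b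
        rw [hm, hm, hm, map_sub, sub_eq_zero]
      rw [Fintype.sum_bool]
      simp only [h5]
      rw [nk]
      push_cast
      split_ifs <;> ring)
  -- evaluate the sums over the pairs
  have e1 : ∑ i ∈ G ×ˢ (Finset.univ : Finset Bool), Real.log (i.1 : ℝ) / ((i.1 : ℝ) / 3 + 2 * √(i.1 : ℝ) + 3) =
      2 * ∑ p ∈ G, Real.log (p : ℝ) / ((p : ℝ) / 3 + 2 * √(p : ℝ) + 3) := by
    rw [Finset.sum_product, Finset.mul_sum]
    apply Finset.sum_congr rfl
    intro p _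
    rw [Fintype.sum_bool]
    ring
  have e2 : ∑ i ∈ G ×ˢ (Finset.univ : Finset Bool), Real.log (i.1 : ℝ) = 2 * ∑ p ∈ G, Real.log (p : ℝ) := by
    rw [Finset.sum_product, Finset.mul_sum]
    apply Finset.sum_congr rfl
    intro p _
    rw [Fintype.sum_bool]
    ring
  have hgal' : (U.card : ℝ) * (2 * ∑ p ∈ G, Real.log (p : ℝ) / ((p : ℝ) / 3 + 2 * √(p : ℝ) + 3) - Real.log W) ≤
      2 * ∑ p ∈ G, Real.log (p : ℝ) := by
    rw [← e1, ← e2]
    exact hgal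
  -- lower bound of the sum over G
  have h3 : ∑ p ∈ A, Real.log (p : ℝ) / p ≤ ∑ p ∈ G, Real.log (p : ℝ) / p +
      ∑ p ∈ (nm P).primeFactors, Real.log (p : ℝ) / p := by
    have h4 : ∑ p ∈ A, Real.log (p : ℝ) / p = ∑ p ∈ G, Real.log (p : ℝ) / p +
        ∑ p ∈ A.filter (fun p => ¬ ¬ p ∣ nm P), Real.log (p : ℝ) / p := by
      rw [hG, Finset.sum_filter_add_sum_filter_not]
    rw [h4]
    have h5 : ∑ p ∈ A.filter (fun p => ¬ ¬ p ∣ nm P), Real.log (p : ℝ) / p ≤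
        ∑ p ∈ (nm P).primeFactors, Real.log (p : ℝ) / p := by
      apply Finset.sum_le_sum_of_subset_of_nonneg
      · intro p hp
        rw [Finset.mem_filter, not_not, hA, Finset.mem_filter] at hp
        rw [Nat.mem_primeFactors]
        exact ⟨hp.1.2.1, hp.2, by omega⟩
      · intro p _ _
        have := Real.log_natCast_nonneg p
        positivity
    linarith
  have h6 := hMER Q hQ1
  rw [← hA] at h6
  have h7 := hpf (nm P) (by omega)
  have h8 : 3 * ∑ p ∈ G, Real.log (p : ℝ) / p - 45 * C3 ≤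
      ∑ p ∈ G, Real.log (p : ℝ) / ((p : ℝ) / 3 + 2 * √(p : ℝ) + 3) := by
    have h9 := h32 G (fun p hp => (hGm p hp).1.1)
    have h10 : ∑ p ∈ G, (3 * (Real.log (p : ℝ) / p) - 45 * (Real.log (p : ℝ) / ((p : ℝ) * √p))) ≤
        ∑ p ∈ G, Real.log (p : ℝ) / ((p : ℝ) / 3 + 2 * √(p : ℝ) + 3) :=
      Finset.sum_le_sum fun p hp => weight_ge (hGm p hp).1.1
    rw [Finset.sum_sub_distrib, ← Finset.mul_sum, ← Finset.mul_sum] at h10
    linarith
  have h11 : 1 ≤ 2 * ∑ p ∈ G, Real.log (p : ℝ) / ((p : ℝ) / 3 + 2 * √(p : ℝ) + 3) - Real.log W := by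
    linarith
  -- upper bound
  have h12 : ∑ p ∈ G, Real.log (p : ℝ) ≤ Real.log 4 * Q := by
    have h13 : ∑ p ∈ G, Real.log (p : ℝ) ≤ Chebyshev.theta Q := by
      rw [Chebyshev.theta]
      apply Finset.sum_le_sum_of_subset_of_nonneg
      · intro p hp
        obtain ⟨h1, h2, -, -⟩ := hGm p hp
        rw [Nat.floor_natCast, Finset.mem_filter, Finset.mem_Ioc]
        exact ⟨⟨by omega, h1.2⟩, h2⟩
      · intro p _ _
        exact Real.log_natCast_nonneg p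
    exact h13.trans (Chebyshev.theta_le_log4_mul_x (Nat.cast_nonneg Q))
  have hc0 : (0 : ℝ) ≤ U.card := Nat.cast_nonneg _
  have h14 : (U.card : ℝ) ≤ 2 * (Real.log 4 * Q) := by
    have h15 : (U.card : ℝ) * 1 ≤ (U.card : ℝ) *
        (2 * ∑ p ∈ G, Real.log (p : ℝ) / ((p : ℝ) / 3 + 2 * √(p : ℝ) + 3) - Real.log W) :=
      mul_le_mul_of_nonneg_left h11 hc0
    linarith
  have hl4 : 0 ≤ Real.log 4 := Real.log_nonneg (by norm_num)
  have h16 : (U.card : ℝ) ≤ 4 * Real.log 4 * X := by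
    have := mul_le_mul_of_nonneg_left hQ2 hl4
    linarith
  -- bound of X
  have hW0 : 0 < W := by linarith
  have hP0 : (0 : ℝ) < nm P := by linarith
  have h17 : X ≤ Real.exp K * √W * (nm P : ℝ) ^ ε := by
    have h18 : Real.exp K * √W * (nm P : ℝ) ^ ε = Real.exp (K + 1 / 2 * Real.log W + ε * Real.log (nm P)) := by
      rw [Real.exp_add, Real.exp_add, Real.sqrt_eq_rpow, Real.rpow_def_of_pos hW0, Real.rpow_def_of_pos hP0]
      ring_nf
    rw [h18, hX]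
    apply Real.exp_le_exp.2
    linarith
  calc (U.card : ℝ) ≤ 4 * Real.log 4 * X := h16
    _ ≤ 4 * Real.log 4 * (Real.exp K * √W * (nm P : ℝ) ^ ε) :=
        mul_le_mul_of_nonneg_left h17 (by positivity)
    _ = 4 * Real.log 4 * Real.exp K * √W * (nm P : ℝ) ^ ε := by ring

end Pool.Agent.K1H24.Q3
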