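import Mathlib

/-! # Gallagher's larger sieve, abstract form (helper24, for project Q3 of helper79) -/

set_option autoImplicit false

namespace Pool.Agent.K1H24.Q3

open Finset
open scoped Classical

/-- Cauchy–Schwarz: number of collisions of a map with few values -/
theorem coll {α β : Type} (U : Finset α) (f : α → β) :
    ((U.card : ℝ)) ^ 2 ≤ ((U.image f).card : ℝ) *
      (((U ×ˢ U).filter fun x => f x.1 = f x.2).card : ℝ) := by
  have h1 : (U.card : ℝ) = ∑ b ∈ U.image f, ((U.filter fun u => f u = b).card : ℝ) := by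
    rw [← Nat.cast_sum]
    congr 1
    exact Finset.card_eq_sum_card_image f U
  have h2 : (((U ×ˢ U).filter fun x => f x.1 = f x.2).card : ℝ) =
      ∑ b ∈ U.image f, ((U.filter fun u => f u = b).card : ℝ) ^ 2 := by
    have h3 : ((U ×ˢ U).filter fun x => f x.1 = f x.2).card =
        ∑ b ∈ U.image f, (((U ×ˢ U).filter fun x => f x.1 = f x.2).filter fun x => f x.1 = b).card := by
      apply Finset.card_eq_sum_card_fiberwise
      intro x hx
      rw [Finset.mem_coe, Finset.mem_filter, Finset.mem_product] at hx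
      exact Finset.mem_coe.2 (Finset.mem_image_of_mem f hx.1.1)
    rw [h3]
    push_cast
    apply Finset.sum_congr rfl
    intro b _
    rw [sq, ← Nat.cast_mul, ← Finset.card_product]
    congr 2
    ext ⟨u, v⟩
    simp only [Finset.mem_filter, Finset.mem_product]
    constructor
    · rintro ⟨⟨⟨a, b'⟩, c⟩, d⟩
      exact ⟨⟨a, d⟩, b', by rw [← c, d]⟩
    · rintro ⟨⟨a, b'⟩, c, d⟩
      exact ⟨⟨⟨a, c⟩, by rw [b', d]⟩, b'⟩
  rw [h2, h1]
  exact sq_sum_le_card_mul_sum_sq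

/-- Gallagher's larger sieve -/
theorem gallagher {α ι : Type} (β : ι → Type) (U : Finset α) (I : Finset ι)
    (f : (i : ι) → α → β i) (L ν : ι → ℝ) (hL : ∀ i ∈ I, 0 ≤ L i)
    (hν : ∀ i ∈ I, ((U.image (f i)).card : ℝ) ≤ ν i) (hν0 : ∀ i ∈ I, 0 < ν i) (Λ : ℝ) (hΛ : 0 ≤ Λ)
    (hd : ∀ u ∈ U, ∀ v ∈ U, u ≠ v → ∑ i ∈ I.filter (fun i => f i u = f i v), L i ≤ Λ) :
    (U.card : ℝ) * (∑ i ∈ I, L i / ν i - Λ) ≤ ∑ i ∈ I, L i := by
  rcases U.eq_empty_or_nonempty with rfl | hU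
  · simp only [Finset.card_empty, Nat.cast_zero, zero_mul]
    exact Finset.sum_nonneg hL
  have hc : (0 : ℝ) < U.card := by exact_mod_cast hU.card_pos
  -- lower bound
  have h1 : (U.card : ℝ) ^ 2 * ∑ i ∈ I, L i / ν i ≤
      ∑ i ∈ I, L i * (((U ×ˢ U).filter fun x => f i x.1 = f i x.2).card : ℝ) := by
    rw [Finset.mul_sum]
    apply Finset.sum_le_sum
    intro i hi
    have h2 := coll U (f i)
    have h3 : (U.card : ℝ) ^ 2 ≤ ν i * (((U ×ˢ U).filter fun x => f i x.1 = f i x.2).card : ℝ) :=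
      h2.trans (mul_le_mul_of_nonneg_right (hν i hi) (Nat.cast_nonneg _))
    have h4 : (U.card : ℝ) ^ 2 / ν i ≤ (((U ×ˢ U).filter fun x => f i x.1 = f i x.2).card : ℝ) := by
      rw [div_le_iff₀ (hν0 i hi)]
      linarith
    calc (U.card : ℝ) ^ 2 * (L i / ν i) = L i * ((U.card : ℝ) ^ 2 / ν i) := by ring
      _ ≤ _ := mul_le_mul_of_nonneg_left h4 (hL i hi)
  -- upper bound
  have h5 : ∑ i ∈ I, L i * (((U ×ˢ U).filter fun x => f i x.1 = f i x.2).card : ℝ) =
      ∑ x ∈ U ×ˢ U, ∑ i ∈ I.filter (fun i => f i x.1 = f i x.2), L i := by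
    have h6 : ∀ i ∈ I, L i * (((U ×ˢ U).filter fun x => f i x.1 = f i x.2).card : ℝ) =
        ∑ x ∈ U ×ˢ U, if f i x.1 = f i x.2 then L i else 0 := by
      intro i _
      rw [← Finset.sum_filter, Finset.sum_const, nsmul_eq_mul, mul_comm]
    rw [Finset.sum_congr rfl h6, Finset.sum_comm]
    apply Finset.sum_congr rfl
    intro x _
    rw [Finset.sum_filter]
  have h7 : ∑ x ∈ U ×ˢ U, ∑ i ∈ I.filter (fun i => f i x.1 = f i x.2), L i ≤
      ∑ x ∈ U ×ˢ U, ((if x.1 = x.2 then ∑ i ∈ I, L i else 0) + Λ) := by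
    apply Finset.sum_le_sum
    rintro ⟨u, v⟩ hx
    rw [Finset.mem_product] at hx
    by_cases huv : u = v
    · subst huv
      simp only [if_true, Finset.filter_true]
      linarith
    · rw [if_neg huv, zero_add]
      exact hd u hx.1 v hx.2 huv
  have h8 : ∑ x ∈ U ×ˢ U, ((if x.1 = x.2 then ∑ i ∈ I, L i else 0) + Λ) =
      (U.card : ℝ) * ∑ i ∈ I, L i + (U.card : ℝ) ^ 2 * Λ := by
    rw [Finset.sum_add_distrib, Finset.sum_const, Finset.card_product, Finset.sum_product]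
    congr 1
    · have h9 : ∀ u ∈ U, ∑ v ∈ U, (if u = v then ∑ i ∈ I, L i else 0) = ∑ i ∈ I, L i := by
        intro u hu
        rw [Finset.sum_ite_eq, if_pos hu]
      rw [Finset.sum_congr rfl h9, Finset.sum_const, nsmul_eq_mul]
    · rw [nsmul_eq_mul]; push_cast; ring
  have h10 : (U.card : ℝ) * ((U.card : ℝ) * (∑ i ∈ I, L i / ν i - Λ)) ≤ (U.card : ℝ) * ∑ i ∈ I, L i := by
    nlinarith
  exact le_of_mul_le_mul_left h10 hc

/-- `log p / p` over the prime divisors -/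
theorem sum_primeFactors (ε : ℝ) (hε : 0 < ε) : ∃ C : ℝ, 0 ≤ C ∧ ∀ m : ℕ, m ≠ 0 →
    ∑ p ∈ m.primeFactors, Real.log p / p ≤ ε * Real.log m + C := by
  obtain ⟨N, hN⟩ : ∃ N : ℕ, N = ⌈1 / ε⌉₊ := ⟨_, rfl⟩
  refine ⟨∑ p ∈ Finset.range N, Real.log p / p, Finset.sum_nonneg fun p _ => by positivity, ?_⟩
  intro m hm
  have h0 : ∀ p ∈ m.primeFactors, Real.log p / p ≤ ε * Real.log p + (if p < N then Real.log p / p else 0) := by
    intro p hp
    have hpp := Nat.prime_of_mem_primeFactors hp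
    have hp0 : (0 : ℝ) < p := by exact_mod_cast hpp.pos
    have hlog : 0 ≤ Real.log p := Real.log_natCast_nonneg p
    split_ifs with h
    · have : 0 ≤ ε * Real.log p := by positivity
      linarith
    · push Not at h
      rw [add_zero, div_le_iff₀ hp0]
      have h1 : 1 / ε ≤ p := by
        have h2 : (1 / ε) ≤ (N : ℝ) := by rw [hN]; exact Nat.le_ceil _
        have h3 : (N : ℝ) ≤ p := by exact_mod_cast h
        linarith
      have h4 : 1 ≤ ε * p := by
        rw [div_le_iff₀ hε] at h1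
        linarith
      nlinarith
  refine (Finset.sum_le_sum h0).trans ?_
  rw [Finset.sum_add_distrib, ← Finset.mul_sum]
  have h5 : ∑ p ∈ m.primeFactors, Real.log (p : ℝ) ≤ Real.log m := by
    rw [← Real.log_prod (fun p hp => by
      have := (Nat.prime_of_mem_primeFactors hp).pos
      positivity)]
    rw [← Nat.cast_prod]
    apply Real.log_le_log
    · exact_mod_cast Finset.prod_pos fun p hp => (Nat.prime_of_mem_primeFactors hp).pos
    · exact_mod_cast Nat.le_of_dvd (Nat.pos_of_ne_zero hm) (Nat.prod_primeFactors_dvd m)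
  have h6 : ∑ p ∈ m.primeFactors, (if p < N then Real.log (p : ℝ) / p else 0) ≤
      ∑ p ∈ Finset.range N, Real.log (p : ℝ) / p := by
    rw [← Finset.sum_filter]
    apply Finset.sum_le_sum_of_subset_of_nonneg
    · intro p hp
      rw [Finset.mem_filter] at hp
      exact Finset.mem_range.2 hp.2
    · intro p _ _
      positivity
  have h7 := mul_le_mul_of_nonneg_left h5 hε.le
  linarith

/-- `∑ log n / n^(3/2)` is bounded -/
theorem sum_log_three_halves : ∃ C : ℝ, 0 ≤ C ∧ ∀ s : Finset ℕ, (∀ p ∈ s, 1 ≤ p) →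
    ∑ p ∈ s, Real.log p / ((p : ℝ) * √p) ≤ C := by
  have hs : Summable fun n : ℕ => 1 / (n : ℝ) ^ (5 / 4 : ℝ) :=
    Real.summable_one_div_nat_rpow.2 (by norm_num)
  refine ⟨4 * ∑' n : ℕ, 1 / (n : ℝ) ^ (5 / 4 : ℝ), ?_, ?_⟩
  · have : 0 ≤ ∑' n : ℕ, 1 / (n : ℝ) ^ (5 / 4 : ℝ) := tsum_nonneg fun n => by positivity
    linarith
  · intro s hs1
    have h1 : ∀ p ∈ s, Real.log p / ((p : ℝ) * √p) ≤ 4 * (1 / (p : ℝ) ^ (5 / 4 : ℝ)) := by
      intro p hp
      have hp0 : (0 : ℝ) < p := by exact_mod_cast hs1 p hp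
      have h2 : Real.log p ≤ (p : ℝ) ^ (1 / 4 : ℝ) / (1 / 4) := Real.log_le_rpow_div hp0.le (by norm_num)
      have h3 : (p : ℝ) * √p = (p : ℝ) ^ (3 / 2 : ℝ) := by
        rw [Real.sqrt_eq_rpow]
        nth_rewrite 1 [← Real.rpow_one (p : ℝ)]
        rw [← Real.rpow_add hp0]
        norm_num
      rw [h3, div_le_iff₀ (by positivity)]
      have h4 : 4 * (1 / (p : ℝ) ^ (5 / 4 : ℝ)) * (p : ℝ) ^ (3 / 2 : ℝ) = 4 * (p : ℝ) ^ (1 / 4 : ℝ) := by
        have h5 : (p : ℝ) ^ (3 / 2 : ℝ) = (p : ℝ) ^ (5 / 4 : ℝ) * (p : ℝ) ^ (1 / 4 : ℝ) := by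
          rw [← Real.rpow_add hp0]; norm_num
        rw [h5]
        have h6 : (p : ℝ) ^ (5 / 4 : ℝ) ≠ 0 := by positivity
        field_simp
      rw [h4]
      linarith
    refine (Finset.sum_le_sum h1).trans ?_
    rw [← Finset.mul_sum]
    exact mul_le_mul_of_nonneg_left (hs.sum_le_tsum s fun n _ => by positivity) (by norm_num)

end Pool.Agent.K1H24.Q3
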