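import Pool.Agent.K1H79.Q3.StmA
import Pool.Agent.K1H24.Q3.LSV1

/-! # The larger sieve in `ℤ[ω]` (helper24, for project Q3 of helper79) -/

set_option autoImplicit false

namespace Pool.Agent.K1H24.Q3

open Finset Pool.Agent.K1H79.Q3
open scoped Classical

/-- the homomorphism `ω ↦ θ` -/
def homE (p : ℕ) (θ : ZMod p) (h : θ ^ 2 + θ + 1 = 0) : E →+* ZMod p where
  toFun z := (z.re : ZMod p) + (z.im : ZMod p) * θ
  map_one' := by
    show ((1 : ℤ) : ZMod p) + ((0 : ℤ) : ZMod p) * θ = 1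
    push_cast
    ring
  map_zero' := by
    show ((0 : ℤ) : ZMod p) + ((0 : ℤ) : ZMod p) * θ = 0
    push_cast
    ring
  map_add' z w := by
    simp only [QuadraticAlgebra.re_add, QuadraticAlgebra.im_add]
    push_cast
    ring
  map_mul' z w := by
    simp only [QuadraticAlgebra.re_mul, QuadraticAlgebra.im_mul]
    push_cast
    linear_combination (-(z.im : ZMod p) * w.im) * h

theorem homE_apply (p : ℕ) (θ : ZMod p) (h : θ ^ 2 + θ + 1 = 0) (z : E) :
    homE p θ h z = (z.re : ZMod p) + (z.im : ZMod p) * θ := rfl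

theorem conj_root {p : ℕ} {θ : ZMod p} (h : θ ^ 2 + θ + 1 = 0) :
    (-1 - θ) ^ 2 + (-1 - θ) + 1 = 0 := by linear_combination h

theorem homE_mul_conj (p : ℕ) (θ : ZMod p) (h : θ ^ 2 + θ + 1 = 0) (z : E) :
    homE p θ h z * homE p (-1 - θ) (conj_root h) z = ((nm z : ℕ) : ZMod p) := by
  have h1 : ((nm z : ℕ) : ZMod p) = ((z.re ^ 2 - z.re * z.im + z.im ^ 2 : ℤ) : ZMod p) := by
    rw [← nm_cast z]; push_cast; rfl
  rw [h1, homE_apply, homE_apply]
  push_cast
  linear_combination (-(z.im : ZMod p) ^ 2) * h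

theorem exists_root (p : ℕ) [Fact p.Prime] (h : p % 3 = 1) : ∃ θ : ZMod p, θ ^ 2 + θ + 1 = 0 := by
  have h3 : Fact (Nat.Prime 3) := ⟨Nat.prime_three⟩
  have hdvd : 3 ∣ Fintype.card (ZMod p)ˣ := by
    rw [ZMod.card_units]
    omega
  obtain ⟨u, hu⟩ := exists_prime_orderOf_dvd_card 3 hdvd
  refine ⟨(u : ZMod p), ?_⟩
  have h1 : (u : ZMod p) ^ 3 = 1 := by
    rw [← Units.val_pow_eq_pow_val, ← hu, pow_orderOf_eq_one]; rfl
  have h2 : (u : ZMod p) ≠ 1 := by
    intro h'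
    have : u = 1 := Units.ext h'
    rw [this, orderOf_one] at hu
    omega
  have h4 : ((u : ZMod p) - 1) * ((u : ZMod p) ^ 2 + u + 1) = 0 := by linear_combination h1
  rcases mul_eq_zero.1 h4 with h5 | h5
  · exact absurd (sub_eq_zero.1 h5) h2
  · exact h5

/-- if both homomorphisms kill `z` then `p² ∣ nm z` -/
theorem sq_dvd {p : ℕ} [Fact p.Prime] (h : p % 3 = 1) {θ : ZMod p} (hθ : θ ^ 2 + θ + 1 = 0) {z : E}
    (h1 : homE p θ hθ z = 0) (h2 : homE p (-1 - θ) (conj_root hθ) z = 0) : p ^ 2 ∣ nm z := by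
  rw [homE_apply] at h1 h2
  have h3 : (3 : ZMod p) ≠ 0 := by
    intro h'
    have h4 : ((3 : ℕ) : ZMod p) = 0 := by exact_mod_cast h'
    rw [ZMod.natCast_eq_zero_iff] at h4
    have h5 := (Nat.prime_dvd_prime_iff_eq Fact.out Nat.prime_three).1 h4
    omega
  have hy : (z.im : ZMod p) = 0 := by
    have h6 : (z.im : ZMod p) * 3 = 0 := by
      linear_combination (-(1 + 2 * θ)) * (h1 - h2) + 4 * (z.im : ZMod p) * hθ
    rcases mul_eq_zero.1 h6 with h7 | h7
    · exact h7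
    · exact absurd h7 h3
  have hx : (z.re : ZMod p) = 0 := by
    rw [hy] at h1
    simpa using h1
  rw [ZMod.intCast_zmod_eq_zero_iff_dvd] at hx hy
  obtain ⟨a, ha⟩ := hx
  obtain ⟨b, hb⟩ := hy
  have h8 : ((p ^ 2 : ℕ) : ℤ) ∣ (nm z : ℤ) := by
    rw [nm_cast, ha, hb]
    exact ⟨a ^ 2 - a * b + b ^ 2, by push_cast; ring⟩
  exact_mod_cast h8

theorem dvd_left {p : ℕ} {θ : ZMod p} (hθ : θ ^ 2 + θ + 1 = 0) {z : E}
    (h1 : homE p θ hθ z = 0) : p ∣ nm z := by
  have := homE_mul_conj p θ hθ z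
  rw [h1, zero_mul] at this
  exact (ZMod.natCast_eq_zero_iff _ _).1 this.symm

/-- the chosen root -/
noncomputable def rt (p : ℕ) : ZMod p :=
  if h : ∃ θ : ZMod p, θ ^ 2 + θ + 1 = 0 then h.choose else 0

/-- the two maps -/
noncomputable def mp (i : ℕ × Bool) (z : E) : ZMod i.1 :=
  (z.re : ZMod i.1) + (z.im : ZMod i.1) * (if i.2 then rt i.1 else -1 - rt i.1)

theorem rt_spec {p : ℕ} (hp : p.Prime) (h : p % 3 = 1) : (rt p) ^ 2 + rt p + 1 = 0 := by
  have : Fact p.Prime := ⟨hp⟩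
  rw [rt, dif_pos (exists_root p h)]
  exact (exists_root p h).choose_spec

theorem mp_hom {p : ℕ} (hp : p.Prime) (h : p % 3 = 1) (b : Bool) :
    ∃ (θ : ZMod p) (hθ : θ ^ 2 + θ + 1 = 0), ∀ z, mp (p, b) z = homE p θ hθ z := by
  cases b
  · exact ⟨_, conj_root (rt_spec hp h), fun z => by simp [mp, homE_apply]⟩
  · exact ⟨_, rt_spec hp h, fun z => by simp [mp, homE_apply]⟩

/-- number of the two maps killing `z` -/
noncomputable def nk (p : ℕ) (z : E) : ℕ :=
  (if mp (p, true) z = 0 then 1 else 0) + (if mp (p, false) z = 0 then 1 else 0)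

theorem pow_nk_dvd {p : ℕ} (hp : p.Prime) (h : p % 3 = 1) (z : E) : p ^ nk p z ∣ nm z := by
  have : Fact p.Prime := ⟨hp⟩
  have hr := rt_spec hp h
  have e1 : mp (p, true) z = homE p (rt p) hr z := by simp [mp, homE_apply]
  have e2 : mp (p, false) z = homE p (-1 - rt p) (conj_root hr) z := by simp [mp, homE_apply]
  rw [nk]
  by_cases h1 : mp (p, true) z = 0 <;> by_cases h2 : mp (p, false) z = 0
  · rw [if_pos h1, if_pos h2]
    rw [e1] at h1
    rw [e2] at h2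
    exact sq_dvd h hr h1 h2
  · rw [if_pos h1, if_neg h2]
    rw [e1] at h1
    simpa using dvd_left hr h1
  · rw [if_neg h1, if_pos h2]
    rw [e2] at h2
    simpa using dvd_left (conj_root hr) h2
  · rw [if_neg h1, if_neg h2]
    simp

theorem sum_nk_le (S : Finset ℕ) (hS : ∀ p ∈ S, p.Prime ∧ p % 3 = 1) (z : E) (hz : z ≠ 0) :
    ∑ p ∈ S, (nk p z : ℝ) * Real.log p ≤ Real.log (nm z) := by
  have h1 : ∏ p ∈ S, p ^ nk p z ∣ nm z := by
    apply Finset.prod_dvd_of_isRelPrime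
    · intro p hp q hq hpq
      show IsRelPrime (p ^ nk p z) (q ^ nk q z)
      rw [← Nat.coprime_iff_isRelPrime]
      exact Nat.Coprime.pow _ _ ((Nat.coprime_primes (hS p hp).1 (hS q hq).1).2 hpq)
    · intro p hp
      exact pow_nk_dvd (hS p hp).1 (hS p hp).2 z
  have h2 : ∑ p ∈ S, (nk p z : ℝ) * Real.log p = Real.log ((∏ p ∈ S, p ^ nk p z : ℕ) : ℝ) := by
    push_cast
    rw [Real.log_prod (fun p hp => by
      have := (hS p hp).1.pos
      positivity)]
    apply Finset.sum_congr rfl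
    intro p _
    rw [Real.log_pow]
  rw [h2]
  apply Real.log_le_log
  · exact_mod_cast Finset.prod_pos fun p hp => Nat.pow_pos (hS p hp).1.pos
  · exact_mod_cast Nat.le_of_dvd (nm_pos hz) h1

/-- the images of a set on which the polynomial is a cube -/
theorem card_image_le (hC : S_CUB) {p : ℕ} (hp : p.Prime) (h : p % 3 = 1) (b : Bool)
    (P R S ζ : E) (hP : ¬ p ∣ nm P) (hζ : IsUnit ζ) (U : Finset E)
    (hU : ∀ u ∈ U, ∃ a : E, P * u ^ 2 + R * u + S = ζ * a ^ 3) :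
    ((U.image (mp (p, b))).card : ℝ) ≤ p / 3 + 2 * √p + 3 := by
  have : Fact p.Prime := ⟨hp⟩
  obtain ⟨θ, hθ, hm⟩ := mp_hom hp h b
  have h1 : homE p θ hθ P ≠ 0 := fun h' => hP (dvd_left hθ h')
  have h2 : homE p θ hθ ζ ≠ 0 := (hζ.map (homE p θ hθ)).ne_zero
  refine le_trans ?_ (hC p h (homE p θ hθ P) (homE p θ hθ R) (homE p θ hθ S) (homE p θ hθ ζ) h1 h2)
  norm_cast
  have h3 : U.image (mp (p, b)) ⊆ (univ.filter fun u : ZMod p => ∃ a : ZMod p,
      homE p θ hθ P * u ^ 2 + homE p θ hθ R * u + homE p θ hθ S = homE p θ hθ ζ * a ^ 3) := by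
    intro x hx
    obtain ⟨u, hu, rfl⟩ := Finset.mem_image.1 hx
    obtain ⟨a, ha⟩ := hU u hu
    rw [Finset.mem_filter]
    refine ⟨Finset.mem_univ _, homE p θ hθ a, ?_⟩
    rw [hm u, ← map_pow, ← map_pow, ← map_mul, ← map_mul, ← map_mul, ← map_add, ← map_add, ha]
  exact Finset.card_le_card h3

end Pool.Agent.K1H24.Q3
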